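import Pool.Agent.UL5.Stmts

/-!
# Row LAT of squad UL5 (MP_c7c9bf_co): the lattice
-/

set_option autoImplicit false

namespace Pool.Agent.UL5.H32

open MeasureTheory Set Pool.Agent.UL3 Pool.Agent.UL4

theorem int_neg {C : Set (ℝ × ℝ)} (h : PB C) {x : ℝ × ℝ} (hx : x ∈ interior C) :
    -x ∈ interior C := by
  have h1 : (fun y : ℝ × ℝ => -y) ⁻¹' interior C ⊆ interior C := by
    refine interior_maximal ?_ (isOpen_interior.preimage continuous_neg)
    intro y hy
    have h2 := h.sym _ (interior_subset hy)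
    rwa [neg_neg] at h2
  apply h1
  show - -x ∈ interior C
  rwa [neg_neg]

theorem int_smul {C : Set (ℝ × ℝ)} (h : PB C) {x : ℝ × ℝ} (hx : x ∈ interior C) {t : ℝ}
    (h0 : 0 ≤ t) (h1 : t ≤ 1) : t • x ∈ interior C := by
  have h2 := h.cvx.interior hx h.zero_mem h0 (sub_nonneg.2 h1) (by ring)
  rwa [smul_zero, add_zero] at h2

theorem lt_one {C : Set (ℝ × ℝ)} (h : PB C) {u : ℝ × ℝ} (hu : u ∉ interior C) {t : ℝ}
    (ht : t • u ∈ interior C) : |t| < 1 := by
  by_contra hc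
  push Not at hc
  apply hu
  have h2 : |t| • u ∈ interior C := by
    rcases abs_cases t with h3 | h3
    · rw [h3.1]; exact ht
    · rw [h3.1, neg_smul]; exact int_neg h ht
  have h3 := int_smul h h2 (t := |t|⁻¹) (by positivity) (inv_le_one_of_one_le₀ hc)
  rw [smul_smul, inv_mul_cancel₀ (by linarith), one_smul] at h3
  exact h3

theorem cr_smul' (u : ℝ × ℝ) (t : ℝ) (x : ℝ × ℝ) : cr u (t • x) = t * cr u x := by
  unfold cr
  simp only [Prod.smul_fst, Prod.smul_snd, smul_eq_mul]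
  ring

theorem level_lt {C : Set (ℝ × ℝ)} (h : PB C) {u : ℝ × ℝ} (hle : ∀ w ∈ C, |cr u w| ≤ Hm C u)
    (hpos : 0 < Hm C u) {x : ℝ × ℝ} (hx : x ∈ interior C) : cr u x < Hm C u := by
  have hcont : Continuous fun s : ℝ => (1 + s) • x := by fun_prop
  have hopen : IsOpen ((fun s : ℝ => (1 + s) • x) ⁻¹' interior C) :=
    isOpen_interior.preimage hcont
  have h0 : (0 : ℝ) ∈ (fun s : ℝ => (1 + s) • x) ⁻¹' interior C := by
    show (1 + (0 : ℝ)) • x ∈ interior C
    rw [add_zero, one_smul]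
    exact hx
  obtain ⟨ε, hε, hball⟩ := Metric.isOpen_iff.1 hopen 0 h0
  have hs : (ε / 2) ∈ Metric.ball (0 : ℝ) ε := by
    rw [Metric.mem_ball, dist_zero_right, Real.norm_eq_abs, abs_of_pos (by positivity)]
    linarith
  have hsK : (1 + ε / 2) • x ∈ C := interior_subset (hball hs)
  have hb := (le_abs_self _).trans (hle _ hsK)
  rw [cr_smul'] at hb
  by_contra hc
  push Not at hc
  nlinarith

theorem core {C : Set (ℝ × ℝ)} (h : PB C) {u q : ℝ × ℝ} (hu : u ∉ interior C)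
    (hle : ∀ w ∈ C, |cr u w| ≤ Hm C u) (hpos : 0 < Hm C u) {Y : ℝ} (hY : cr u q = Y)
    (hHY : 5 / 7 * Hm C u ≤ Y) (hs : ∀ s : ℝ, 5 / 7 ≤ |s| → q + s • u ∉ interior C)
    (b a n : ℤ) (hn : 0 ≤ n) (h0 : ¬ (b = 0 ∧ a = 0 ∧ n = 0)) (z s : ℝ)
    (hz : z = b / 4 + a / 2 + 3 * n / 8) (hsd : s = 3 * b / 4 - a / 2 + n / 8) (hz1 : |z| < 1)
    (hm : (1 - |z|)⁻¹ • (s • u + (7 * n / 8 : ℝ) • q) ∈ interior C) : False := by
  have hzp : 0 < 1 - |z| := by linarith
  have hYp : 0 < Y := by linarith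
  have hlev := level_lt h hle hpos hm
  have hcr : cr u ((1 - |z|)⁻¹ • (s • u + (7 * n / 8 : ℝ) • q)) =
      (1 - |z|)⁻¹ * ((7 * n / 8 : ℝ) * Y) := by
    rw [cr_smul', ← hY]
    unfold cr
    simp only [Prod.smul_fst, Prod.smul_snd, smul_eq_mul, Prod.fst_add, Prod.snd_add]
    ring
  rw [hcr] at hlev
  have hinv : (1 - |z|) * (1 - |z|)⁻¹ = 1 := mul_inv_cancel₀ hzp.ne'
  have hip : 0 < (1 - |z|)⁻¹ := inv_pos.2 hzp
  have hlev2 : (7 * n / 8 : ℝ) * Y < (1 - |z|) * Hm C u := by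
    have := mul_lt_mul_of_pos_left hlev hzp
    rwa [← mul_assoc, hinv, one_mul] at this
  rcases lt_trichotomy n 1 with h1 | h1 | h1
  · have hn0 : n = 0 := by omega
    subst hn0
    have hm2 : ((1 - |z|)⁻¹ * s) • u ∈ interior C := by
      have e : (1 - |z|)⁻¹ • (s • u + (7 * ((0 : ℤ) : ℝ) / 8 : ℝ) • q) =
          ((1 - |z|)⁻¹ * s) • u := by
        rw [Int.cast_zero, mul_zero, zero_div, zero_smul, add_zero, smul_smul]
      rwa [e] at hm
    have h2 := lt_one h hu hm2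
    rw [abs_mul, abs_of_pos hip] at h2
    have h3 : |s| < 1 - |z| := by
      have := mul_lt_mul_of_pos_left h2 hzp
      rwa [← mul_assoc, hinv, one_mul, mul_one] at this
    have h4 : |s| + |z| < 1 := by linarith
    have h5 : |(b : ℝ)| < 1 := by
      have e : (b : ℝ) = s + z := by rw [hz, hsd]; push_cast; ring
      rw [e]
      exact (abs_add_le _ _).trans_lt h4
    have hb : b = 0 := by
      have : |b| < 1 := by exact_mod_cast h5
      exact Int.abs_lt_one_iff.1 this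
    subst hb
    have h6 : |(a : ℝ)| < 1 := by
      have e : (a : ℝ) = z - s := by rw [hz, hsd]; push_cast; ring
      rw [e]
      have := abs_sub z s
      have h7 : |z - s| ≤ |z| + |s| := abs_sub _ _
      linarith
    have ha : a = 0 := by
      have : |a| < 1 := by exact_mod_cast h6
      exact Int.abs_lt_one_iff.1 this
    exact h0 ⟨rfl, ha, rfl⟩
  · subst h1
    have hk : z = ((2 * b + 4 * a + 3 : ℤ) : ℝ) / 8 := by rw [hz]; push_cast; ring
    by_cases hz3 : 3 / 8 ≤ |z|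
    · push_cast at hlev2
      nlinarith
    · push Not at hz3
      have hk3 : |((2 * b + 4 * a + 3 : ℤ) : ℝ)| < 3 := by
        rw [hk, abs_div] at hz3
        have : |(8 : ℝ)| = 8 := by norm_num
        rw [this] at hz3
        linarith
      have hk4 : |(2 * b + 4 * a + 3 : ℤ)| < 3 := by exact_mod_cast hk3
      have hk5 := abs_lt.1 hk4
      have hcase : b + 2 * a = -1 ∨ b + 2 * a = -2 := by omega
      have hfin : 5 / 8 ≤ |s| ∧ |z| = 1 / 8 := by
        rcases hcase with hc | hc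
        · have hbz : (b : ℝ) = -1 - 2 * a := by
            have : b = -1 - 2 * a := by omega
            rw [this]; push_cast; ring
          have hz8 : z = 1 / 8 := by rw [hz, hbz]; push_cast; ring
          refine ⟨?_, by rw [hz8]; norm_num⟩
          have hs8 : s = b + 3 / 8 := by
            have ha : (a : ℝ) = (-1 - b) / 2 := by linarith
            rw [hsd, ha]; push_cast; ring
          rcases le_or_gt 1 b with h2 | h2
          · have h3 : (1 : ℝ) ≤ b := by exact_mod_cast h2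
            rw [hs8, abs_of_nonneg (by linarith)]
            linarith
          · have h3 : b ≤ -1 := by omega
            have h4 : (b : ℝ) ≤ -1 := by exact_mod_cast h3
            rw [hs8, abs_of_nonpos (by linarith)]
            linarith
        · have hbz : (b : ℝ) = -2 - 2 * a := by
            have : b = -2 - 2 * a := by omega
            rw [this]; push_cast; ring
          have hz8 : z = -(1 / 8) := by rw [hz, hbz]; push_cast; ring
          refine ⟨?_, by rw [hz8, abs_neg]; norm_num⟩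
          have hs8 : s = b + 5 / 8 := by
            have ha : (a : ℝ) = (-2 - b) / 2 := by linarith
            rw [hsd, ha]; push_cast; ring
          rcases le_or_gt 0 b with h2 | h2
          · have h3 : (0 : ℝ) ≤ b := by exact_mod_cast h2
            rw [hs8, abs_of_nonneg (by linarith)]
            linarith
          · have h3 : b ≤ -2 := by omega
            have h4 : (b : ℝ) ≤ -2 := by exact_mod_cast h3
            rw [hs8, abs_of_nonpos (by linarith)]
            linarith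
      apply hs (8 / 7 * s)
      · rw [abs_mul, abs_of_pos (by norm_num : (0 : ℝ) < 8 / 7)]
        linarith [hfin.1]
      · have e : (1 - |z|)⁻¹ • (s • u + (7 * ((1 : ℤ) : ℝ) / 8 : ℝ) • q) =
            q + (8 / 7 * s) • u := by
          rw [hfin.2]
          have e1 : (1 - 1 / 8 : ℝ)⁻¹ = 8 / 7 := by norm_num
          have e2 : (7 * ((1 : ℤ) : ℝ) / 8 : ℝ) = 7 / 8 := by norm_num
          rw [e1, e2]
          module
        rwa [e] at hm
  · have hn2 : (2 : ℝ) ≤ n := by exact_mod_cast (show (2 : ℤ) ≤ n by omega)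
    have h3 : (1 - |z|) * Hm C u ≤ Hm C u := by
      have := abs_nonneg z
      nlinarith
    nlinarith

/-- **LAT** -/
theorem lat (hmx : HmxStmt) (dci : DciStmt) : LatStmt := by
  intro C u q hC huC hu hH hq hs
  obtain ⟨hle, -, -, hpos, -⟩ := hmx C hC
  have hu0 : u ≠ 0 := by
    rintro rfl
    exact hu hC.zero_mem
  have hHp := hpos u hu0
  have har : 0 < ar C := by linarith
  refine ⟨![up ((3 / 4 : ℝ) • u) (1 / 4), up (-(1 / 2 : ℝ) • u) (1 / 2),
    up ((1 / 8 : ℝ) • u + (7 / 8 : ℝ) • q) (3 / 8)], ?_⟩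
  have hdt : dt ![up ((3 / 4 : ℝ) • u) (1 / 4), up (-(1 / 2 : ℝ) • u) (1 / 2),
      up ((1 / 8 : ℝ) • u + (7 / 8 : ℝ) • q) (3 / 8)] = 7 / 64 * ar C := by
    unfold dt
    rw [Matrix.det_fin_three]
    simp only [Matrix.of_apply, Matrix.cons_val_zero, Matrix.cons_val_one, Matrix.cons_val_two,
      Matrix.head_cons, Matrix.tail_cons, Matrix.cons_val, up_zero, up_one, up_two,
      Prod.smul_fst, Prod.smul_snd, smul_eq_mul, Prod.fst_add, Prod.snd_add]
    have hq2 : u.1 * q.2 - u.2 * q.1 = ar C / 4 := hq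
    have e : 3 / 4 * u.1 * (-(1 / 2) * u.2) * (3 / 8) -
        3 / 4 * u.1 * (1 / 2) * (1 / 8 * u.2 + 7 / 8 * q.2) -
        3 / 4 * u.2 * (-(1 / 2) * u.1) * (3 / 8) +
        3 / 4 * u.2 * (1 / 2) * (1 / 8 * u.1 + 7 / 8 * q.1) +
        1 / 4 * (-(1 / 2) * u.1) * (1 / 8 * u.2 + 7 / 8 * q.2) -
        1 / 4 * (-(1 / 2) * u.2) * (1 / 8 * u.1 + 7 / 8 * q.1) =
        -(7 / 64 * ar C) := by
      have : ar C = 4 * (u.1 * q.2 - u.2 * q.1) := by linarith
      rw [this]
      ring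
    rw [e, abs_neg, abs_of_pos (by positivity)]
  refine ⟨by rw [hdt]; positivity, ?_, hdt⟩
  intro n hn hmem
  have hsum : (∑ i, (n i : ℝ) • (![up ((3 / 4 : ℝ) • u) (1 / 4), up (-(1 / 2 : ℝ) • u) (1 / 2),
      up ((1 / 8 : ℝ) • u + (7 / 8 : ℝ) • q) (3 / 8)] : Fin 3 → E3) i) =
      up ((3 * n 0 / 4 - n 1 / 2 + n 2 / 8 : ℝ) • u + (7 * n 2 / 8 : ℝ) • q)
        (n 0 / 4 + n 1 / 2 + 3 * n 2 / 8) := by
    rw [Fin.sum_univ_three]
    simp only [Matrix.cons_val_zero, Matrix.cons_val_one, Matrix.cons_val_two, Matrix.head_cons,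
      Matrix.tail_cons, Matrix.cons_val]
    rw [up_smul, up_smul, up_smul, up_add, up_add]
    congr 1
    · module
    · ring
  rw [hsum] at hmem
  obtain ⟨hz1, hm⟩ := dci C _ _ hC hmem
  have hHY : 5 / 7 * Hm C u ≤ ar C / 4 := by linarith
  rcases le_or_gt 0 (n 2) with h2 | h2
  · refine core hC hu (hle u) hHp hq hHY hs (n 0) (n 1) (n 2) h2 ?_ _ _ rfl rfl hz1 hm
    rintro ⟨e0, e1, e2⟩
    apply hn
    funext i
    fin_cases i
    · exact e0
    · exact e1
    · exact e2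
  · have hm2 := int_neg hC hm
    refine core hC hu (hle u) hHp hq hHY hs (-n 0) (-n 1) (-n 2) (by omega) ?_
      (-(n 0 / 4 + n 1 / 2 + 3 * n 2 / 8)) (-(3 * n 0 / 4 - n 1 / 2 + n 2 / 8)) ?_ ?_ ?_ ?_
    · rintro ⟨e0, e1, e2⟩
      omega
    · push_cast; ring
    · push_cast; ring
    · rwa [abs_neg]
    · rw [abs_neg]
      have e : (1 - |(n 0 / 4 + n 1 / 2 + 3 * n 2 / 8 : ℝ)|)⁻¹ •
          (-(3 * n 0 / 4 - n 1 / 2 + n 2 / 8 : ℝ) • u + (7 * ((-n 2 : ℤ) : ℝ) / 8 : ℝ) • q) =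
          -((1 - |(n 0 / 4 + n 1 / 2 + 3 * n 2 / 8 : ℝ)|)⁻¹ •
          ((3 * n 0 / 4 - n 1 / 2 + n 2 / 8 : ℝ) • u + (7 * n 2 / 8 : ℝ) • q)) := by
        push_cast
        module
      rw [e]
      exact hm2

end Pool.Agent.UL5.H32
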